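import Pool.Agent.LPK.Stmts

/-!
# Squad LPK (MP_37fa12_co), row SCL: scaling and the dual basis
-/

set_option autoImplicit false

noncomputable section

open MeasureTheory Filter Topology
open scoped RealInnerProductSpace

namespace Pool.Agent.LPK.H88

/-- SCL -/
theorem scl : SclStmt := by
  intro n κ c hn hκ hdet
  have hn0 : (n : ℝ) ≠ 0 := by
    have : (0 : ℝ) < n := by exact_mod_cast hn
    exact this.ne'
  have hpi : (0 : ℝ) < 2 * Real.pi := by positivity
  set d : ℝ := (Matrix.of fun i j => c i j).det with hd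
  have hdp : 0 < |d| := abs_pos.2 hdet
  set q : ℝ := κ * (2 * Real.pi) ^ ((n : ℝ) / 2) / |d| with hq
  have hqp : 0 < q := by positivity
  set t : ℝ := q ^ ((1 : ℝ) / n) with ht
  have htp : 0 < t := Real.rpow_pos_of_pos hqp _
  have htn : t ^ n = q := by
    rw [ht, ← Real.rpow_natCast, ← Real.rpow_mul hqp.le, one_div, inv_mul_cancel₀ hn0,
      Real.rpow_one]
  have hvol : t ^ n * |d| = κ * (2 * Real.pi) ^ ((n : ℝ) / 2) := by
    rw [htn, hq, div_mul_cancel₀ _ hdp.ne']
  set b : Fin n → V n := fun i => t • c i with hb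
  set B : Matrix (Fin n) (Fin n) ℝ := Matrix.of fun i j => b i j with hB
  have hBC : B = t • (Matrix.of fun i j => c i j) := by
    ext i j
    simp [hB, hb]
  have hBd : B.det = t ^ n * d := by
    rw [hBC, Matrix.det_smul, Fintype.card_fin]
  have hBne : B.det ≠ 0 := by
    rw [hBd]
    exact mul_ne_zero (pow_ne_zero _ htp.ne') hdet
  have hBu : IsUnit B.det := isUnit_iff_ne_zero.2 hBne
  set b' : Fin n → V n := fun j => WithLp.toLp 2 fun l => 2 * Real.pi * B⁻¹ l j with hb'
  refine ⟨t, b, b', htp, ⟨hκ, ?_, ?_⟩, ?_, hvol⟩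
  · intro i j
    have h1 : ⟪b i, b' j⟫ = 2 * Real.pi * (B * B⁻¹) i j := by
      rw [PiLp.inner_apply, Matrix.mul_apply, Finset.mul_sum]
      refine Finset.sum_congr rfl fun l _ => ?_
      show b' j l * b i l = _
      show 2 * Real.pi * B⁻¹ l j * B i l = _
      ring
    rw [h1, Matrix.mul_nonsing_inv _ hBu, Matrix.one_apply]
    split_ifs <;> simp
  · rw [← hB, hBd]
    have h1 : (t ^ n * d) ^ 2 = (t ^ n * |d|) ^ 2 := by
      rw [mul_pow, mul_pow, sq_abs]
    rw [h1, hvol, mul_pow]
    congr 1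
    rw [← Real.rpow_natCast, ← Real.rpow_mul hpi.le]
    have : (n : ℝ) / 2 * ((2 : ℕ) : ℝ) = n := by
      push_cast
      ring
    rw [this, Real.rpow_natCast]
  · intro a
    rw [pt, pt, Finset.smul_sum]
    refine Finset.sum_congr rfl fun i _ => ?_
    rw [hb, smul_comm]

end Pool.Agent.LPK.H88
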